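import Pool.Agent.Q82.MD.Stm3

/-! Project MD (helper82), job MD-21 SEP (helper38): separately convex functions of the diagonal
entries plus a quadratic form in the other entries are rank-one convex. -/

set_option autoImplicit false

namespace Pool.Agent.Q38.MD

open Set Pool.Agent.Q82.MD

/-- second differences of a convex function on the line are nonnegative -/
theorem sd {g : ℝ → ℝ} (hg : ConvexOn ℝ univ g) (x s : ℝ) : 2 * g x ≤ g (x + s) + g (x - s) := by
  have h := hg.2 (mem_univ (x + s)) (mem_univ (x - s)) (by norm_num : (0 : ℝ) ≤ 1 / 2)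
    (by norm_num : (0 : ℝ) ≤ 1 / 2) (by norm_num)
  simp only [smul_eq_mul] at h
  have e : 1 / 2 * (x + s) + 1 / 2 * (x - s) = x := by ring
  rw [e] at h
  linarith

/-- continuous functions with nonnegative second differences lie below their chords -/
theorem chord {g : ℝ → ℝ} (hc : Continuous g) (hg : ∀ x s, 2 * g x ≤ g (x + s) + g (x - s))
    {t : ℝ} (h0 : 0 ≤ t) (h1 : t ≤ 1) : g t ≤ (1 - t) * g 0 + t * g 1 := by
  set ψ : ℝ → ℝ := fun t => g t - ((1 - t) * g 0 + t * g 1) with hψ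
  have hψc : Continuous ψ := by
    rw [hψ]
    fun_prop
  have hψs : ∀ x s, 2 * ψ x ≤ ψ (x + s) + ψ (x - s) := by
    intro x s
    have := hg x s
    simp only [hψ]
    linarith
  have hψ0 : ψ 0 = 0 := by simp [hψ]
  have hψ1 : ψ 1 = 0 := by simp [hψ]
  obtain ⟨m, hm, hmax⟩ := isCompact_Icc.exists_isMaxOn (⟨0, by simp⟩ : (Icc (0 : ℝ) 1).Nonempty)
    hψc.continuousOn
  have hmax' : ∀ x ∈ Icc (0 : ℝ) 1, ψ x ≤ ψ m := fun x hx => hmax hx
  have key : ψ m ≤ 0 := by
    rcases le_total m (1 / 2) with h | h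
    · have h2 := hψs m m
      have h3 := hmax' (m + m) ⟨by linarith [hm.1], by linarith⟩
      rw [sub_self, hψ0] at h2
      linarith
    · have h2 := hψs m (1 - m)
      have h3 := hmax' (m - (1 - m)) ⟨by linarith [hm.1], by linarith [hm.2]⟩
      have e : m + (1 - m) = 1 := by ring
      rw [e, hψ1] at h2
      linarith
  have := hmax' t ⟨h0, h1⟩
  simp only [hψ] at this key ⊢
  linarith

theorem second {K : ℝ} {f : ℝ → ℝ → ℝ} (h1 : ∀ y, ConvexOn ℝ univ (fun x => f x y))
    (h2 : ∀ x, ConvexOn ℝ univ (f x))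
    (h3 : ConvexOn ℝ univ (fun v : Fin 2 → ℝ => K / 2 * (v 0 ^ 2 + v 1 ^ 2) - f (v 0) (v 1)))
    (x y a b : ℝ) : 2 * f x y ≤ f (x + a) (y + b) + f (x - a) (y - b) + 2 * K * (|a| * |b|) := by
  rcases eq_or_ne a 0 with ha | ha
  · subst ha
    have := sd (h2 x) y b
    simp only [add_zero, sub_zero, abs_zero, zero_mul, mul_zero]
    exact this
  rcases eq_or_ne b 0 with hb | hb
  · subst hb
    have := sd (h1 y) x a
    simp only [add_zero, sub_zero, abs_zero, mul_zero]
    exact this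
  have hpa : 0 < |a| := abs_pos.2 ha
  have hpb : 0 < |b| := abs_pos.2 hb
  have hsum : 0 < |a| + |b| := by positivity
  set l : ℝ := |a| / (|a| + |b|) with hl
  set m : ℝ := |b| / (|a| + |b|) with hm
  have hl0 : 0 < l := by positivity
  have hm0 : 0 < m := by positivity
  have hlm : l + m = 1 := by
    rw [hl, hm, ← add_div, div_self hsum.ne']
  -- the four convexity inequalities
  have key : ∀ σ : ℝ, K / 2 * ((x + σ * a) ^ 2 + (y + σ * b) ^ 2) - f (x + σ * a) (y + σ * b) ≤
      l * (K / 2 * ((x + σ * (a / l)) ^ 2 + y ^ 2) - f (x + σ * (a / l)) y) +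
      m * (K / 2 * (x ^ 2 + (y + σ * (b / m)) ^ 2) - f x (y + σ * (b / m))) := by
    intro σ
    have h := h3.2 (mem_univ ![x + σ * (a / l), y]) (mem_univ ![x, y + σ * (b / m)])
      hl0.le hm0.le hlm
    simp only [smul_eq_mul, Pi.add_apply, Pi.smul_apply, Matrix.cons_val_zero,
      Matrix.cons_val_one] at h
    have e1 : l * (x + σ * (a / l)) + m * x = x + σ * a := by
      have : l * (σ * (a / l)) = σ * a := by field_simp
      linear_combination x * hlm + this
    have e2 : l * y + m * (y + σ * (b / m)) = y + σ * b := by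
      have : m * (σ * (b / m)) = σ * b := by field_simp
      linear_combination y * hlm + this
    rw [e1, e2] at h
    exact h
  have k1 := key 1
  have k2 := key (-1)
  have s1 := mul_le_mul_of_nonneg_left (sd (h1 y) x (a / l)) hl0.le
  have s2 := mul_le_mul_of_nonneg_left (sd (h2 x) y (b / m)) hm0.le
  simp only [one_mul, neg_mul, ← sub_eq_add_neg] at k1 k2
  have e3 : l * (a / l) ^ 2 = |a| * (|a| + |b|) := by
    rw [hl, div_pow, ← sq_abs a]
    field_simp
  have e4 : m * (b / m) ^ 2 = |b| * (|a| + |b|) := by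
    rw [hm, div_pow, ← sq_abs b]
    field_simp
  have e5 : a ^ 2 = |a| ^ 2 := (sq_abs a).symm
  have e6 : b ^ 2 = |b| ^ 2 := (sq_abs b).symm
  clear key
  generalize a / l = p at *
  generalize b / m = r at *
  linear_combination k1 + k2 + s1 + s2 + (-2 * f x y + K * (x ^ 2 + y ^ 2)) * hlm + K * e3 +
    K * e4 - K * e5 - K * e6

theorem sep : S_SEP := by
  intro K f hK h1 h2 h3 F H hH t ht0 ht1
  have hdet : H 0 0 * H 1 1 = H 0 1 * H 1 0 := by
    have : H.det = 0 := by
      by_contra hne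
      have hu : IsUnit H := (Matrix.isUnit_iff_isUnit_det _).2 (isUnit_iff_ne_zero.2 hne)
      have := Matrix.rank_of_isUnit H hu
      rw [hH] at this
      simp at this
    rw [Matrix.det_fin_two] at this
    linarith
  have hφ : Continuous (fun v : Fin 2 → ℝ => K / 2 * (v 0 ^ 2 + v 1 ^ 2) - f (v 0) (v 1)) := by
    have := h3.continuousOn isOpen_univ
    rwa [continuousOn_univ] at this
  have hf : Continuous (fun v : Fin 2 → ℝ => f (v 0) (v 1)) := by
    have h4 : (fun v : Fin 2 → ℝ => f (v 0) (v 1)) = fun v : Fin 2 → ℝ =>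
        K / 2 * (v 0 ^ 2 + v 1 ^ 2) - (K / 2 * (v 0 ^ 2 + v 1 ^ 2) - f (v 0) (v 1)) := by
      funext v; ring
    rw [h4]
    exact (by fun_prop : Continuous fun v : Fin 2 → ℝ => K / 2 * (v 0 ^ 2 + v 1 ^ 2)).sub hφ
  set g : ℝ → ℝ := fun t => f (F 0 0 + t * H 0 0) (F 1 1 + t * H 1 1) +
    K / 2 * ((F 0 1 + t * H 0 1) ^ 2 + (F 1 0 + t * H 1 0) ^ 2) with hg
  have hgc : Continuous g := by
    rw [hg]
    have h5 : Continuous fun t : ℝ => f (F 0 0 + t * H 0 0) (F 1 1 + t * H 1 1) := by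
      have h6 : Continuous fun t : ℝ => (![F 0 0 + t * H 0 0, F 1 1 + t * H 1 1] : Fin 2 → ℝ) := by
        rw [continuous_pi_iff]
        intro i
        fin_cases i
        · simp only [Fin.zero_eta, Matrix.cons_val_zero]; fun_prop
        · simp only [Fin.mk_one, Matrix.cons_val_one]; fun_prop
      exact hf.comp h6
    exact h5.add (by fun_prop)
  have hgs : ∀ x s, 2 * g x ≤ g (x + s) + g (x - s) := by
    intro x s
    have h5 := second h1 h2 h3 (F 0 0 + x * H 0 0) (F 1 1 + x * H 1 1) (s * H 0 0) (s * H 1 1)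
    simp only [hg]
    have e1 : F 0 0 + (x + s) * H 0 0 = F 0 0 + x * H 0 0 + s * H 0 0 := by ring
    have e2 : F 1 1 + (x + s) * H 1 1 = F 1 1 + x * H 1 1 + s * H 1 1 := by ring
    have e3 : F 0 0 + (x - s) * H 0 0 = F 0 0 + x * H 0 0 - s * H 0 0 := by ring
    have e4 : F 1 1 + (x - s) * H 1 1 = F 1 1 + x * H 1 1 - s * H 1 1 := by ring
    rw [e1, e2, e3, e4]
    have h6 : 2 * (|s * H 0 0| * |s * H 1 1|) ≤ (s * H 0 1) ^ 2 + (s * H 1 0) ^ 2 := by
      rw [← abs_mul]
      have e5 : s * H 0 0 * (s * H 1 1) = (s * H 0 1) * (s * H 1 0) := by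
        linear_combination s ^ 2 * hdet
      rw [e5, abs_mul, ← sq_abs (s * H 0 1), ← sq_abs (s * H 1 0)]
      nlinarith [sq_nonneg (|s * H 0 1| - |s * H 1 0|)]
    have h7 := mul_le_mul_of_nonneg_left h6 hK
    linarith
  have h8 := chord hgc hgs ht0 ht1
  have e0 : g 0 = f (F 0 0) (F 1 1) + K / 2 * (F 0 1 ^ 2 + F 1 0 ^ 2) := by simp [hg]
  have e1 : g 1 = f ((F + H) 0 0) ((F + H) 1 1) + K / 2 * ((F + H) 0 1 ^ 2 + (F + H) 1 0 ^ 2) := by
    simp [hg]
  have e2 : ∀ i j, ((1 - t) • F + t • (F + H)) i j = F i j + t * H i j := by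
    intro i j
    simp only [Matrix.add_apply, Matrix.smul_apply, smul_eq_mul]
    ring
  simp only [e2]
  rw [e0, e1] at h8
  exact h8

end Pool.Agent.Q38.MD
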